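import Pool.Agent.TH494.CC.Map

/-!
# A closed convex arc whose only centre is irrational
-/

set_option autoImplicit false

namespace Pool.Agent.TH494.CC

variable {k : Type} [Field k]

/-- the scalar product -/
def dot (x y : Fin 2 → ℚ) : ℚ := x 0 * y 0 + x 1 * y 1

/-- `b'` is obtained from `b` by a Weyl group element, with the coordinate change `g` -/
def Move (b b' : Fin 4 → Fin 4 → k) (g : (Fin 2 → ℚ) → Fin 2 → ℚ) : Prop :=
  IsFrame b' ∧ (∀ v, flt b v = flt b' (g v)) ∧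
    (∀ (s t : ℚ) (v w : Fin 2 → ℚ), g (s • v + t • w) = s • g v + t • g w) ∧
    ∀ v w, dot (g v) (g w) = dot v w

lemma move_id {b : Fin 4 → Fin 4 → k} (hb : IsFrame b) : Move b b id :=
  ⟨hb, fun _ => rfl, fun _ _ _ _ => rfl, fun _ _ => rfl⟩

lemma move_trans {b b' b'' : Fin 4 → Fin 4 → k} {g g' : (Fin 2 → ℚ) → Fin 2 → ℚ}
    (h : Move b b' g) (h' : Move b' b'' g') : Move b b'' (fun v => g' (g v)) := by
  obtain ⟨_, h2, h3, h4⟩ := h
  obtain ⟨k1, k2, k3, k4⟩ := h'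
  exact ⟨k1, fun v => by rw [h2, k2], fun s t v w => by beta_reduce; rw [h3, k3],
    fun v w => by rw [k4, h4]⟩

lemma move_swap {b : Fin 4 → Fin 4 → k} (hb : IsFrame b) :
    Move b ![b 1, b 0, b 3, b 2] (fun v => ![v 1, v 0]) := by
  obtain ⟨h01, h02, h03, h10, h12, h13, h20, h21, h23, h30, h31, h32⟩ := fr_val hb
  have hb' : IsFrame ![b 1, b 0, b 3, b 2] := isFrame_of h10 h13 h12 h03 h02 h32
  refine ⟨hb', fun v => ?_, fun s t v w => ?_, fun v w => ?_⟩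
  · funext c
    ext u
    rw [mem_flt hb, mem_flt hb']
    show _ ↔ (om u (b 3) ≠ 0 → c ≤ v 1) ∧ (om u (b 2) ≠ 0 → c ≤ v 0) ∧
      (om u (b 1) ≠ 0 → c ≤ -v 1) ∧ (om u (b 0) ≠ 0 → c ≤ -v 0)
    tauto
  · funext i
    fin_cases i <;> rfl
  · show v 1 * w 1 + v 0 * w 0 = v 0 * w 0 + v 1 * w 1
    ring

lemma om_neg_right (u v : Fin 4 → k) : om u (-v) = -om u v := by
  simp only [om, Pi.neg_apply]; ring

lemma move_neg0 {b : Fin 4 → Fin 4 → k} (hb : IsFrame b) :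
    Move b ![b 2, b 1, -b 0, b 3] (fun v => ![-v 0, v 1]) := by
  obtain ⟨h01, h02, h03, h10, h12, h13, h20, h21, h23, h30, h31, h32⟩ := fr_val hb
  have hb' : IsFrame ![b 2, b 1, -b 0, b 3] := by
    refine isFrame_of h21 ?_ h23 ?_ h13 ?_
    · show om (b 2) (-b 0) = 1
      rw [om_neg_right, h20, neg_neg]
    · show om (b 1) (-b 0) = 0
      rw [om_neg_right, h10, neg_zero]
    · show om (-b 0) (b 3) = 0
      rw [om_swap, om_neg_right, h30, neg_zero, neg_zero]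
  refine ⟨hb', fun v => ?_, fun s t v w => ?_, fun v w => ?_⟩
  · funext c
    ext u
    rw [mem_flt hb, mem_flt hb']
    show _ ↔ (om u (-b 0) ≠ 0 → c ≤ -v 0) ∧ (om u (b 3) ≠ 0 → c ≤ v 1) ∧
      (om u (b 2) ≠ 0 → c ≤ - -v 0) ∧ (om u (b 1) ≠ 0 → c ≤ -v 1)
    rw [om_neg_right, neg_ne_zero, neg_neg]
    tauto
  · funext i
    fin_cases i
    · show -(s * v 0 + t * w 0) = s * -v 0 + t * -w 0
      ring
    · rfl
  · show -v 0 * -w 0 + v 1 * w 1 = v 0 * w 0 + v 1 * w 1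
    ring

lemma move_neg1 {b : Fin 4 → Fin 4 → k} (hb : IsFrame b) :
    Move b ![b 0, b 3, b 2, -b 1] (fun v => ![v 0, -v 1]) := by
  obtain ⟨h01, h02, h03, h10, h12, h13, h20, h21, h23, h30, h31, h32⟩ := fr_val hb
  have hb' : IsFrame ![b 0, b 3, b 2, -b 1] := by
    refine isFrame_of h03 h02 ?_ h32 ?_ ?_
    · show om (b 0) (-b 1) = 0
      rw [om_neg_right, h01, neg_zero]
    · show om (b 3) (-b 1) = 1
      rw [om_neg_right, h31, neg_neg]
    · show om (b 2) (-b 1) = 0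
      rw [om_neg_right, h21, neg_zero]
  refine ⟨hb', fun v => ?_, fun s t v w => ?_, fun v w => ?_⟩
  · funext c
    ext u
    rw [mem_flt hb, mem_flt hb']
    show _ ↔ (om u (b 2) ≠ 0 → c ≤ v 0) ∧ (om u (-b 1) ≠ 0 → c ≤ -v 1) ∧
      (om u (b 0) ≠ 0 → c ≤ -v 0) ∧ (om u (b 3) ≠ 0 → c ≤ - -v 1)
    rw [om_neg_right, neg_ne_zero, neg_neg]
    tauto
  · funext i
    fin_cases i
    · rfl
    · show -(s * v 1 + t * w 1) = s * -v 1 + t * -w 1
      ring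
  · show v 0 * w 0 + -v 1 * -w 1 = v 0 * w 0 + v 1 * w 1
    ring

/-- every cocharacter lies in the closed chamber of some symplectic basis of the same torus -/
lemma exists_move {b : Fin 4 → Fin 4 → k} (hb : IsFrame b) (x : Fin 2 → ℚ) :
    ∃ b' g, Move b b' g ∧ 0 ≤ g x 1 ∧ g x 1 ≤ g x 0 := by
  have s1 : ∃ b' g, Move b b' g ∧ 0 ≤ g x 0 := by
    by_cases h : 0 ≤ x 0
    · exact ⟨b, id, move_id hb, h⟩
    · refine ⟨_, _, move_neg0 hb, ?_⟩
      show 0 ≤ -x 0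
      linarith
  obtain ⟨b1, g1, m1, p1⟩ := s1
  have s2 : ∃ b' g, Move b b' g ∧ 0 ≤ g x 0 ∧ 0 ≤ g x 1 := by
    by_cases h : 0 ≤ g1 x 1
    · exact ⟨b1, g1, m1, p1, h⟩
    · refine ⟨_, _, move_trans m1 (move_neg1 m1.1), p1, ?_⟩
      show 0 ≤ -g1 x 1
      linarith
  obtain ⟨b2, g2, m2, p2, p3⟩ := s2
  by_cases h : g2 x 1 ≤ g2 x 0
  · exact ⟨b2, g2, m2, p3, h⟩
  · refine ⟨_, _, move_trans m2 (move_swap m2.1), p2, ?_⟩
    show g2 x 0 ≤ g2 x 1
    linarith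

lemma Move.ray {b b' : Fin 4 → Fin 4 → k} {g : (Fin 2 → ℚ) → Fin 2 → ℚ} (h : Move b b' g)
    (v : Fin 2 → ℚ) : ray b v = ray b' (g v) :=
  ray_eq_iff.2 ⟨1, one_pos, by rw [one_smul]; exact h.2.1 v⟩

/-- the same flag -/
def SameFlag (b b' : Fin 4 → Fin 4 → k) : Prop :=
  (∀ u, om u (b 0) = 0 ↔ om u (b' 0) = 0) ∧
  (∀ u, (om u (b 0) = 0 ∧ om u (b 1) = 0) ↔ (om u (b' 0) = 0 ∧ om u (b' 1) = 0)) ∧
  ∀ u, (om u (b 0) = 0 ∧ om u (b 1) = 0 ∧ om u (b 3) = 0) ↔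
    (om u (b' 0) = 0 ∧ om u (b' 1) = 0 ∧ om u (b' 3) = 0)

lemma mem1 {b : Fin 4 → Fin 4 → k} (hb : IsFrame b) {x : Fin 2 → ℚ} {c : ℚ} (u : Fin 4 → k)
    (h1 : 0 ≤ x 1) (_h2 : x 1 ≤ x 0) (hc1 : -x 0 < c) (hc2 : c ≤ -x 1) :
    u ∈ flt b x c ↔ om u (b 0) = 0 := by
  rw [mem_flt hb]
  constructor
  · rintro ⟨_, _, h, _⟩
    by_contra hne
    linarith [h hne]
  · intro h
    exact ⟨fun _ => by linarith, fun _ => by linarith, fun h' => absurd h h', fun _ => hc2⟩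

lemma mem2 {b : Fin 4 → Fin 4 → k} (hb : IsFrame b) {x : Fin 2 → ℚ} {c : ℚ} (u : Fin 4 → k)
    (h2 : x 1 ≤ x 0) (hc1 : -x 1 < c) (hc2 : c ≤ x 1) :
    u ∈ flt b x c ↔ om u (b 0) = 0 ∧ om u (b 1) = 0 := by
  rw [mem_flt hb]
  constructor
  · rintro ⟨_, _, h, h'⟩
    constructor
    · by_contra hne
      linarith [h hne]
    · by_contra hne
      linarith [h' hne]
  · rintro ⟨h, h'⟩
    exact ⟨fun _ => by linarith, fun _ => hc2, fun h'' => absurd h h'', fun h'' => absurd h' h''⟩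

lemma mem3 {b : Fin 4 → Fin 4 → k} (hb : IsFrame b) {x : Fin 2 → ℚ} {c : ℚ} (u : Fin 4 → k)
    (h1 : 0 ≤ x 1) (_h2 : x 1 ≤ x 0) (hc1 : x 1 < c) (hc2 : c ≤ x 0) :
    u ∈ flt b x c ↔ om u (b 0) = 0 ∧ om u (b 1) = 0 ∧ om u (b 3) = 0 := by
  rw [mem_flt hb]
  constructor
  · rintro ⟨_, h3, h, h'⟩
    refine ⟨?_, ?_, ?_⟩
    · by_contra hne
      linarith [h hne]
    · by_contra hne
      linarith [h' hne]
    · by_contra hne
      linarith [h3 hne]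
  · rintro ⟨h, h', h3⟩
    exact ⟨fun _ => hc2, fun h'' => absurd h3 h'', fun h'' => absurd h h'', fun h'' => absurd h' h''⟩

lemma mem4 {b : Fin 4 → Fin 4 → k} (hb : IsFrame b) {x : Fin 2 → ℚ} {c : ℚ} (u : Fin 4 → k)
    (h1 : 0 ≤ x 1) (h2 : x 1 ≤ x 0) (hc1 : x 0 < c) : u ∈ flt b x c ↔ u = 0 := by
  rw [mem_flt hb]
  constructor
  · rintro ⟨h2', h3, h, h'⟩
    refine frame_sep hb u fun i => ?_
    fin_cases i
    · show om u (b 0) = 0
      by_contra hne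
      linarith [h hne]
    · show om u (b 1) = 0
      by_contra hne
      linarith [h' hne]
    · show om u (b 2) = 0
      by_contra hne
      linarith [h2' hne]
    · show om u (b 3) = 0
      by_contra hne
      linarith [h3 hne]
  · rintro rfl
    simp [om_zero_left]

/-- the filtration of a cocharacter in the closed chamber depends only on the flag -/
lemma flt_of_flag {b b' : Fin 4 → Fin 4 → k} (hb : IsFrame b) (hb' : IsFrame b')
    (h : SameFlag b b') {v : Fin 2 → ℚ} (h1 : 0 ≤ v 1) (h2 : v 1 ≤ v 0) : flt b v = flt b' v := by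
  obtain ⟨e1, e2, e3⟩ := h
  funext c
  ext u
  by_cases c1 : c ≤ -v 0
  · rw [mem_flt hb, mem_flt hb']
    constructor <;> intro _ <;>
      exact ⟨fun _ => by linarith, fun _ => by linarith, fun _ => by linarith, fun _ => by linarith⟩
  · rw [not_le] at c1
    by_cases c2 : c ≤ -v 1
    · rw [mem1 hb u h1 h2 c1 c2, mem1 hb' u h1 h2 c1 c2, e1]
    · rw [not_le] at c2
      by_cases c3 : c ≤ v 1
      · rw [mem2 hb u h2 c2 c3, mem2 hb' u h2 c2 c3, e2]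
      · rw [not_le] at c3
        by_cases c4 : c ≤ v 0
        · rw [mem3 hb u h1 h2 c3 c4, mem3 hb' u h1 h2 c3 c4, e3]
        · rw [not_le] at c4
          rw [mem4 hb u h1 h2 c4, mem4 hb' u h1 h2 c4]

lemma fr_ne {b : Fin 4 → Fin 4 → k} (hb : IsFrame b) : b 0 ≠ 0 ∧ b 1 ≠ 0 := by
  obtain ⟨h01, h02, h03, h10, h12, h13, h20, h21, h23, h30, h31, h32⟩ := fr_val hb
  constructor
  · intro h
    rw [h, om_zero_left] at h02
    exact zero_ne_one h02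
  · intro h
    rw [h, om_zero_left] at h13
    exact zero_ne_one h13

/-- the first two vectors do not lie on one line -/
lemma not_both {b b' : Fin 4 → Fin 4 → k} (hb : IsFrame b) (hb' : IsFrame b')
    (h0 : om (b 0) (b' 0) = 0 ∧ om (b 0) (b' 1) = 0 ∧ om (b 0) (b' 3) = 0)
    (h1 : om (b 1) (b' 0) = 0 ∧ om (b 1) (b' 1) = 0 ∧ om (b 1) (b' 3) = 0) : False := by
  obtain ⟨h01, h02, h03, h10, h12, h13, h20, h21, h23, h30, h31, h32⟩ := fr_val hb
  have e0 := expand hb' (b 0)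
  have e1 := expand hb' (b 1)
  rw [h0.1, h0.2.1, h0.2.2] at e0
  rw [h1.1, h1.2.1, h1.2.2] at e1
  simp only [zero_smul, add_zero, sub_zero] at e0 e1
  have f0 : om (b 0) (b 2) = om (b 0) (b' 2) * om (b' 0) (b 2) := by
    conv_lhs => rw [e0, om_smul_left]
  have f1 : om (b 1) (b 2) = om (b 1) (b' 2) * om (b' 0) (b 2) := by
    conv_lhs => rw [e1, om_smul_left]
  rw [h02] at f0
  rw [h12] at f1
  have hne : om (b' 0) (b 2) ≠ 0 := by
    intro h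
    rw [h, mul_zero] at f0
    exact one_ne_zero f0
  have h5 : om (b 1) (b' 2) = 0 := by
    rcases mul_eq_zero.1 f1.symm with h | h
    · exact h
    · exact absurd h hne
  rw [h5, zero_smul] at e1
  exact (fr_ne hb).2 e1

/-- a regular cocharacter is determined by its filtration, and its flag as well -/
lemma lemC {b b' : Fin 4 → Fin 4 → k} (hb : IsFrame b) (hb' : IsFrame b') {x z : Fin 2 → ℚ}
    (hx1 : 0 ≤ x 1) (hx2 : x 1 ≤ x 0) (hz1 : 0 < z 1) (hz2 : z 1 < z 0)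
    (h : flt b x = flt b' z) : x = z ∧ SameFlag b b' := by
  have hm : ∀ {b : Fin 4 → Fin 4 → k} (x : Fin 2 → ℚ) (i : Fin 4), b i ∈ flt b x (wt x i) :=
    fun x i => Submodule.subset_span ⟨i, le_rfl, rfl⟩
  have e0 : x 0 = z 0 := by
    apply le_antisymm
    · by_contra hcon
      rw [not_le] at hcon
      have h1 : b 0 ∈ flt b' z (x 0) := by
        rw [← h]
        exact hm x 0
      rw [mem4 hb' _ hz1.le hz2.le hcon] at h1
      exact (fr_ne hb).1 h1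
    · by_contra hcon
      rw [not_le] at hcon
      have h1 : b' 0 ∈ flt b x (z 0) := by
        rw [h]
        exact hm z 0
      rw [mem4 hb _ hx1 hx2 hcon] at h1
      exact (fr_ne hb').1 h1
  have e1 : x 1 = z 1 := by
    apply le_antisymm
    · by_contra hcon
      rw [not_le] at hcon
      have h0 : b 0 ∈ flt b' z (x 1) := by
        rw [← h, mem_flt hb]
        obtain ⟨h01, h02, h03, h10, h12, h13, h20, h21, h23, h30, h31, h32⟩ := fr_val hb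
        rw [h03, om_self, h01]
        exact ⟨fun _ => hx2, fun h => absurd rfl h, fun h => absurd rfl h, fun h => absurd rfl h⟩
      have h1 : b 1 ∈ flt b' z (x 1) := by
        rw [← h]
        exact hm x 1
      rw [mem3 hb' _ hz1.le hz2.le hcon (by linarith)] at h0 h1
      exact not_both hb hb' h0 h1
    · by_contra hcon
      rw [not_le] at hcon
      have h0 : b' 0 ∈ flt b x (z 1) := by
        rw [h, mem_flt hb']
        obtain ⟨h01, h02, h03, h10, h12, h13, h20, h21, h23, h30, h31, h32⟩ := fr_val hb'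
        rw [h03, om_self, h01]
        exact ⟨fun _ => hz2.le, fun h => absurd rfl h, fun h => absurd rfl h, fun h => absurd rfl h⟩
      have h1 : b' 1 ∈ flt b x (z 1) := by
        rw [h]
        exact hm z 1
      rw [mem3 hb _ hx1 hx2 hcon (by linarith)] at h0 h1
      exact not_both hb' hb h0 h1
  have hxz : x = z := by
    funext i
    fin_cases i
    · exact e0
    · exact e1
  refine ⟨hxz, ?_⟩
  subst hxz
  refine ⟨fun u => ?_, fun u => ?_, fun u => ?_⟩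
  · rw [← mem1 hb u hx1 hx2 (by linarith : -x 0 < -x 1) le_rfl, h,
      mem1 hb' u hx1 hx2 (by linarith : -x 0 < -x 1) le_rfl]
  · rw [← mem2 hb u hx2 (by linarith : -x 1 < x 1) le_rfl, h,
      mem2 hb' u hx2 (by linarith : -x 1 < x 1) le_rfl]
  · rw [← mem3 hb u hx1 hx2 hz2 le_rfl, h, mem3 hb' u hx1 hx2 hz2 le_rfl]

/-- if the flag is the same and the filtration is regular, the cocharacter is in the chamber -/
lemma lemE {b b' : Fin 4 → Fin 4 → k} (hb : IsFrame b) (hb' : IsFrame b') (hF : SameFlag b b')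
    {y w : Fin 2 → ℚ} (hw1 : 0 < w 1) (hw2 : w 1 < w 0) (h : flt b y = flt b' w) :
    0 ≤ y 1 ∧ y 1 ≤ y 0 := by
  obtain ⟨h01, h02, h03, h10, h12, h13, h20, h21, h23, h30, h31, h32⟩ := fr_val hb
  obtain ⟨e1, e2, e3⟩ := hF
  have k0 : b 0 ∈ flt b y (w 0) := by
    rw [h, mem3 hb' _ hw1.le hw2.le hw2 le_rfl, ← e3]
    exact ⟨om_self _, h01, h03⟩
  have k1 : b 1 ∈ flt b y (w 1) := by
    rw [h, mem2 hb' _ hw2.le (by linarith) le_rfl, ← e2]
    exact ⟨h10, om_self _⟩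
  rw [mem_flt hb] at k0 k1
  have l0 : w 0 ≤ y 0 := k0.1 (by rw [h02]; exact one_ne_zero)
  have l1 : w 1 ≤ y 1 := k1.2.1 (by rw [h13]; exact one_ne_zero)
  refine ⟨by linarith, ?_⟩
  by_contra hcon
  rw [not_le] at hcon
  have k2 : b 1 ∈ flt b' w (y 1) := by
    rw [← h]
    exact Submodule.subset_span ⟨1, le_rfl, rfl⟩
  rw [mem4 hb' _ hw1.le hw2.le (by linarith)] at k2
  exact (fr_ne hb).2 k2

/-- the coordinates of the arc -/
def D0 : Set (Fin 2 → ℚ) := {x | 0 < x 1 ∧ 2 * x 1 ≤ x 0 ∧ x 0 ≤ 3 * x 1}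

lemma D0_ne {x : Fin 2 → ℚ} (hx : x ∈ D0) : x ≠ 0 := by
  rintro rfl
  exact lt_irrefl _ hx.1

lemma D0_smul {x : Fin 2 → ℚ} (hx : x ∈ D0) {t : ℚ} (ht : 0 < t) : t • x ∈ D0 := by
  obtain ⟨h1, h2, h3⟩ := hx
  refine ⟨mul_pos ht h1, ?_, ?_⟩
  · show 2 * (t * x 1) ≤ t * x 0
    nlinarith
  · show t * x 0 ≤ 3 * (t * x 1)
    nlinarith

lemma D0_reg {x : Fin 2 → ℚ} (hx : x ∈ D0) : 0 < x 1 ∧ x 1 < x 0 := by
  obtain ⟨h1, h2, h3⟩ := hx
  exact ⟨h1, by linarith⟩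

/-- the points of the arc in other coordinates -/
lemma key {b b0 : Fin 4 → Fin 4 → k} (hb : IsFrame b) (hb0 : IsFrame b0) {p : Pt k}
    (hp : p ∈ pts b0 D0) {x : Fin 2 → ℚ} (h1 : 0 ≤ x 1) (h2 : x 1 ≤ x 0) (hx : p.1 = ray b x) :
    x ∈ D0 ∧ SameFlag b b0 := by
  obtain ⟨z, hz, hpz⟩ := hp
  rw [hx] at hpz
  obtain ⟨t, ht, h⟩ := ray_eq_iff.1 hpz
  have hz' := D0_smul hz ht
  obtain ⟨e, hF⟩ := lemC hb hb0 h1 h2 (D0_reg hz').1 (D0_reg hz').2 h
  exact ⟨by rw [e]; exact hz', hF⟩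

/-- with the same flag the coordinates are in the chamber -/
lemma key' {b b0 : Fin 4 → Fin 4 → k} (hb : IsFrame b) (hb0 : IsFrame b0) (hF : SameFlag b b0)
    {p : Pt k} (hp : p ∈ pts b0 D0) {x : Fin 2 → ℚ} (hx : p.1 = ray b x) : x ∈ D0 := by
  have hp' := hp
  obtain ⟨z, hz, hpz⟩ := hp
  rw [hx] at hpz
  obtain ⟨t, ht, h⟩ := ray_eq_iff.1 hpz
  have hz' := D0_smul hz ht
  obtain ⟨e1, e2⟩ := lemE hb hb0 hF (D0_reg hz').1 (D0_reg hz').2 h
  exact (key hb hb0 hp' e1 e2 hx).1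

lemma conv_arc {b0 : Fin 4 → Fin 4 → k} (hb0 : IsFrame b0) : Conv (pts b0 D0) := by
  rintro p hp q hq - r ⟨b, x, y, s, t, hb, hx, hy, hs, ht, hne, hpx, hqy, hr⟩
  obtain ⟨b', g, hM, g1, g2⟩ := exists_move hb x
  rw [hM.ray] at hpx hqy hr
  obtain ⟨hxD, hF⟩ := key hM.1 hb0 hp g1 g2 hpx
  have hyD := key' hM.1 hb0 hF hq hqy
  rw [hM.2.2.1] at hr
  have hst : 0 < s ∨ 0 < t := by
    by_contra hcon
    push Not at hcon
    apply hne
    have h1 : s = 0 := le_antisymm hcon.1 hs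
    have h2 : t = 0 := le_antisymm hcon.2 ht
    rw [h1, h2, zero_smul, zero_smul, add_zero]
  obtain ⟨a1, a2, a3⟩ := hxD
  obtain ⟨c1, c2, c3⟩ := hyD
  have hD : s • g x + t • g y ∈ D0 := by
    refine ⟨?_, ?_, ?_⟩
    · show 0 < s * g x 1 + t * g y 1
      rcases hst with h | h
      · have h3 := mul_pos h a1
        have h4 := mul_nonneg ht c1.le
        linarith
      · have h3 := mul_nonneg hs a1.le
        have h4 := mul_pos h c1
        linarith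
    · show 2 * (s * g x 1 + t * g y 1) ≤ s * g x 0 + t * g y 0
      nlinarith [mul_le_mul_of_nonneg_left a2 hs, mul_le_mul_of_nonneg_left c2 ht]
    · show s * g x 0 + t * g y 0 ≤ 3 * (s * g x 1 + t * g y 1)
      nlinarith [mul_le_mul_of_nonneg_left a3 hs, mul_le_mul_of_nonneg_left c3 ht]
  refine ⟨_, hD, ?_⟩
  rw [hr]
  refine ray_eq_iff.2 ⟨1, one_pos, ?_⟩
  rw [one_smul]
  exact flt_of_flag hM.1 hb0 hF (D0_reg hD).1.le (D0_reg hD).2.le

lemma not_cr {b0 : Fin 4 → Fin 4 → k} (hb0 : IsFrame b0) {z : Fin 2 → ℚ} (hz : z ∈ D0) :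
    ¬ IsCR (pts b0 D0) := by
  intro h
  obtain ⟨q, hq, b, x, hb, hx, hpx, hqx⟩ := h (mk b0 z hb0 (D0_ne hz)) ⟨z, hz, rfl⟩
  obtain ⟨b', g, hM, g1, g2⟩ := exists_move hb x
  rw [hM.ray] at hpx hqx
  obtain ⟨hxD, hF⟩ := key hM.1 hb0 ⟨z, hz, rfl⟩ g1 g2 hpx
  have hn : g (-x) = -g x := by
    have := hM.2.2.1 (-1) 0 x x
    simpa using this
  rw [hn] at hqx
  have h3 := key' hM.1 hb0 hF hq hqx
  have h4 : 0 < -g x 1 := h3.1
  have h5 := hxD.1
  linarith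

lemma not_sub {b0 : Fin 4 → Fin 4 → k} (hb0 : IsFrame b0) {z : Fin 2 → ℚ} (hz : z ∈ D0) :
    ¬ IsSubcomplex (pts b0 D0) := by
  rintro ⟨C, hC, hS⟩
  have hp : mk b0 z hb0 (D0_ne hz) ∈ pts b0 D0 := ⟨z, hz, rfl⟩
  have hp' := hp
  rw [hS] at hp'
  obtain ⟨s, hs, hps⟩ := hp'
  have hsub : s ⊆ pts b0 D0 := by
    rw [hS]
    exact Set.subset_sUnion_of_mem hs
  have n10 : (![1, 0] : Fin 2 → ℚ) ∉ D0 := by
    rintro ⟨h, -, -⟩
    have : (0 : ℚ) < 0 := h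
    exact lt_irrefl _ this
  have n11 : (![1, 1] : Fin 2 → ℚ) ∉ D0 := by
    rintro ⟨-, h, -⟩
    have : (2 : ℚ) * 1 ≤ 1 := h
    norm_num at this
  have l10 : (0 : ℚ) ≤ (![1, 0] : Fin 2 → ℚ) 1 ∧ (![1, 0] : Fin 2 → ℚ) 1 ≤ (![1, 0] : Fin 2 → ℚ) 0 := by
    constructor
    · show (0 : ℚ) ≤ 0
      norm_num
    · show (0 : ℚ) ≤ 1
      norm_num
  have l11 : (0 : ℚ) ≤ (![1, 1] : Fin 2 → ℚ) 1 ∧ (![1, 1] : Fin 2 → ℚ) 1 ≤ (![1, 1] : Fin 2 → ℚ) 0 := by
    constructor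
    · show (0 : ℚ) ≤ 1
      norm_num
    · show (1 : ℚ) ≤ 1
      norm_num
  obtain ⟨b, hb, rfl | rfl | rfl⟩ := hC s hs
  · have h1 : mk b ![1, 0] hb ne10 ∈ cham b := ⟨![1, 0], ne10, l10.1, l10.2, rfl⟩
    exact n10 (key hb hb0 (hsub h1) l10.1 l10.2 rfl).1
  · exact n10 (key hb hb0 hp l10.1 l10.2 hps).1
  · exact n11 (key hb hb0 hp l11.1 l11.2 hps).1

end Pool.Agent.TH494.CC
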