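import Mathlib

/-!
# The rational spherical building of the symplectic group `Sp₄`

Let `k` be a field and `V = k⁴` with the standard symplectic form `om`. The maximal tori of
`G = Sp₄` correspond to the decompositions of `V` into the four lines spanned by the members of a
symplectic basis (`IsFrame`), and for a symplectic basis `b` the rational cocharacters of the torus
correspond to the vectors `x ∈ ℚ²`: the cocharacter `x` acts on `b i` with weight `wt x i`, where
`wt x = (x 0, x 1, -x 0, -x 1)`. Two rational cocharacters give the same point of the (vector)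
building if and only if they define the same filtration `flt b x` of `V` by the subspaces spanned by
the vectors of weight at least `c`; their parabolic subgroup is the stabilizer of the filtration. A
point of the rational building `Δ(ℚ)` is the direction of a nonzero rational cocharacter; we take it
to be the ray `ray b x` of the filtrations `flt b (t x)`, `t > 0`.
-/

set_option autoImplicit false

namespace Pool.Agent.TH494.CC

section

variable {k : Type} [Field k]

/-- The standard symplectic form on `k⁴`. -/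
def om (u v : Fin 4 → k) : k := u 0 * v 2 - u 2 * v 0 + (u 1 * v 3 - u 3 * v 1)

/-- `b` is a symplectic basis of `k⁴`: the values `om (b i) (b j)` are those of the standard basis,
`om (b 0) (b 2) = om (b 1) (b 3) = 1` and so on. -/
def IsFrame (b : Fin 4 → Fin 4 → k) : Prop :=
  ∀ i j, om (b i) (b j) = om (Pi.single i (1 : k)) (Pi.single j (1 : k))

/-- The weights of the cocharacter `x ∈ ℚ²` on the four vectors of a symplectic basis. -/
def wt (x : Fin 2 → ℚ) : Fin 4 → ℚ := ![x 0, x 1, -x 0, -x 1]

/-- The filtration of `k⁴` defined by the cocharacter `x` of the torus given by `b`: the `c`-th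
subspace is spanned by the basis vectors of weight at least `c`. -/
def flt (b : Fin 4 → Fin 4 → k) (x : Fin 2 → ℚ) (c : ℚ) : Submodule k (Fin 4 → k) :=
  Submodule.span k {v | ∃ i, c ≤ wt x i ∧ v = b i}

/-- The direction of the rational cocharacter `x` of the torus given by `b`: all filtrations
`flt b (t x)`, `t > 0`. -/
def ray (b : Fin 4 → Fin 4 → k) (x : Fin 2 → ℚ) : Set (ℚ → Submodule k (Fin 4 → k)) :=
  {F | ∃ t : ℚ, 0 < t ∧ F = flt b (t • x)}

end

/-- The rational building `Δ(ℚ)` of `Sp₄` over `k`: the directions of the nonzero rational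
cocharacters. -/
def Pt (k : Type) [Field k] : Type :=
  {p : Set (ℚ → Submodule k (Fin 4 → k)) // ∃ b x, IsFrame b ∧ x ≠ 0 ∧ p = ray b x}

section

variable {k : Type} [Field k]

/-- The apartment of the symplectic basis `b` (of the torus given by `b`): the directions of its
nonzero rational cocharacters. -/
def apt (b : Fin 4 → Fin 4 → k) : Set (Pt k) := {p | ∃ x, x ≠ 0 ∧ p.1 = ray b x}

/-- `A` is an apartment. -/
def IsApt (A : Set (Pt k)) : Prop := ∃ b, IsFrame b ∧ A = apt b

/-- The closed chamber of the isotropic flag `⟨b 0⟩ ⊂ ⟨b 0, b 1⟩`, that is, of the Borel subgroup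
stabilizing this flag: the directions `x` with `x 0 ≥ x 1 ≥ 0`. -/
def cham (b : Fin 4 → Fin 4 → k) : Set (Pt k) :=
  {p | ∃ x : Fin 2 → ℚ, x ≠ 0 ∧ 0 ≤ x 1 ∧ x 1 ≤ x 0 ∧ p.1 = ray b x}

/-- `s` is a closed simplex of the building: a closed chamber or one of its two vertices, which
correspond to the isotropic line `⟨b 0⟩` and the isotropic plane `⟨b 0, b 1⟩`. -/
def IsSimplex (s : Set (Pt k)) : Prop :=
  ∃ b, IsFrame b ∧ (s = cham b ∨ s = {p | p.1 = ray b ![1, 0]} ∨ s = {p | p.1 = ray b ![1, 1]})

/-- `S` is a subcomplex: a union of closed simplices. -/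
def IsSubcomplex (S : Set (Pt k)) : Prop :=
  ∃ C : Set (Set (Pt k)), (∀ s ∈ C, IsSimplex s) ∧ S = ⋃₀ C

/-- The angle between two nonzero vectors of `ℚ²`, for the invariant scalar product
`x 0 * y 0 + x 1 * y 1` on the rational cocharacters of a maximal torus of `Sp₄`. -/
noncomputable def ang (x y : Fin 2 → ℚ) : ℝ :=
  Real.arccos (((x 0 * y 0 + x 1 * y 1 : ℚ) : ℝ) /
    (√((x 0 ^ 2 + x 1 ^ 2 : ℚ) : ℝ) * √((y 0 ^ 2 + y 1 ^ 2 : ℚ) : ℝ)))

/-- The distance of `p` and `q` is `θ`: they have the angular distance `θ` in a common apartment. -/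
def HasDist (p q : Pt k) (θ : ℝ) : Prop :=
  ∃ b x y, IsFrame b ∧ x ≠ 0 ∧ y ≠ 0 ∧ p.1 = ray b x ∧ q.1 = ray b y ∧ θ = ang x y

/-- `p` and `q` are opposite: antipodal in a common apartment. -/
def Opp (p q : Pt k) : Prop :=
  ∃ b x, IsFrame b ∧ x ≠ 0 ∧ p.1 = ray b x ∧ q.1 = ray b (-x)

/-- `r` lies on the geodesic from `p` to `q` (for points which are not opposite): in a common
apartment of `p` and `q` its direction is a nonzero combination `s x + t y`, `s, t ≥ 0`, of their
directions `x` and `y`. -/
def Btw (p q r : Pt k) : Prop :=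
  ∃ (b : Fin 4 → Fin 4 → k) (x y : Fin 2 → ℚ) (s t : ℚ), IsFrame b ∧ x ≠ 0 ∧ y ≠ 0 ∧ 0 ≤ s ∧
    0 ≤ t ∧ s • x + t • y ≠ 0 ∧ p.1 = ray b x ∧ q.1 = ray b y ∧ r.1 = ray b (s • x + t • y)

/-- `S` is convex: it contains the geodesic between any two of its non-opposite points. -/
def Conv (S : Set (Pt k)) : Prop := ∀ p ∈ S, ∀ q ∈ S, ¬ Opp p q → ∀ r, Btw p q r → r ∈ S

/-- `S` is closed in the metric topology. -/
def Closed (S : Set (Pt k)) : Prop :=
  ∀ p, (∀ ε : ℝ, 0 < ε → ∃ q ∈ S, ∃ θ, HasDist p q θ ∧ θ < ε) → p ∈ S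

/-- `S` is completely reducible: every point of `S` has an opposite point in `S`. -/
def IsCR (S : Set (Pt k)) : Prop := ∀ p ∈ S, ∃ q ∈ S, Opp p q

/-- `φ` is an automorphism of the building `Δ(ℚ)`: a bijection which preserves the apartments, the
simplices and the distances (in both directions). -/
def IsAut (φ : Equiv.Perm (Pt k)) : Prop :=
  (∀ A : Set (Pt k), IsApt A ↔ IsApt (φ '' A)) ∧
  (∀ s : Set (Pt k), IsSimplex s ↔ IsSimplex (φ '' s)) ∧
  ∀ p q θ, HasDist p q θ ↔ HasDist (φ p) (φ q) θ

/-- `c` is a centre of `S`: a point of `S` fixed by all building automorphisms that stabilize `S`. -/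
def IsCentre (S : Set (Pt k)) (c : Pt k) : Prop :=
  c ∈ S ∧ ∀ φ : Equiv.Perm (Pt k), IsAut φ → φ '' S = S → φ c = c

end

end Pool.Agent.TH494.CC
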