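import Pool.Agent.TH494.CC.Defs

/-!
# Linear algebra of symplectic bases of `k⁴`
-/

set_option autoImplicit false

namespace Pool.Agent.TH494.CC

variable {k : Type} [Field k]

lemma om_add_left (u v w : Fin 4 → k) : om (u + v) w = om u w + om v w := by
  simp only [om, Pi.add_apply]; ring

lemma om_smul_left (a : k) (u w : Fin 4 → k) : om (a • u) w = a * om u w := by
  simp only [om, Pi.smul_apply, smul_eq_mul]; ring

lemma om_sub_left (u v w : Fin 4 → k) : om (u - v) w = om u w - om v w := by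
  simp only [om, Pi.sub_apply]; ring

lemma om_add_right (u v w : Fin 4 → k) : om u (v + w) = om u v + om u w := by
  simp only [om, Pi.add_apply]; ring

lemma om_smul_right (a : k) (u w : Fin 4 → k) : om u (a • w) = a * om u w := by
  simp only [om, Pi.smul_apply, smul_eq_mul]; ring

lemma om_zero_left (w : Fin 4 → k) : om 0 w = 0 := by simp [om]

lemma om_zero_right (w : Fin 4 → k) : om w 0 = 0 := by simp [om]

lemma om_self (u : Fin 4 → k) : om u u = 0 := by simp only [om]; ring

lemma om_swap (u v : Fin 4 → k) : om u v = -om v u := by simp only [om]; ring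

/-- the values on a symplectic basis -/
lemma fr_val {b : Fin 4 → Fin 4 → k} (hb : IsFrame b) :
    om (b 0) (b 1) = 0 ∧ om (b 0) (b 2) = 1 ∧ om (b 0) (b 3) = 0 ∧ om (b 1) (b 0) = 0 ∧
    om (b 1) (b 2) = 0 ∧ om (b 1) (b 3) = 1 ∧ om (b 2) (b 0) = -1 ∧ om (b 2) (b 1) = 0 ∧
    om (b 2) (b 3) = 0 ∧ om (b 3) (b 0) = 0 ∧ om (b 3) (b 1) = -1 ∧ om (b 3) (b 2) = 0 := by
  refine ⟨?_, ?_, ?_, ?_, ?_, ?_, ?_, ?_, ?_, ?_, ?_, ?_⟩ <;> rw [hb] <;> simp [om, Pi.single_apply]

/-- the values are enough -/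
lemma isFrame_of {b : Fin 4 → Fin 4 → k} (h01 : om (b 0) (b 1) = 0) (h02 : om (b 0) (b 2) = 1)
    (h03 : om (b 0) (b 3) = 0) (h12 : om (b 1) (b 2) = 0) (h13 : om (b 1) (b 3) = 1)
    (h23 : om (b 2) (b 3) = 0) : IsFrame b := by
  have h10 : om (b 1) (b 0) = 0 := by rw [om_swap, h01, neg_zero]
  have h20 : om (b 2) (b 0) = -1 := by rw [om_swap, h02]
  have h30 : om (b 3) (b 0) = 0 := by rw [om_swap, h03, neg_zero]
  have h21 : om (b 2) (b 1) = 0 := by rw [om_swap, h12, neg_zero]
  have h31 : om (b 3) (b 1) = -1 := by rw [om_swap, h13]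
  have h32 : om (b 3) (b 2) = 0 := by rw [om_swap, h23, neg_zero]
  intro i j
  fin_cases i <;> fin_cases j <;>
    simp [om_self, h01, h02, h03, h12, h13, h23, h10, h20, h30, h21, h31, h32] <;>
    simp [om, Pi.single_apply]

lemma frame_li {b : Fin 4 → Fin 4 → k} (hb : IsFrame b) : LinearIndependent k b := by
  obtain ⟨h01, h02, h03, h10, h12, h13, h20, h21, h23, h30, h31, h32⟩ := fr_val hb
  rw [Fintype.linearIndependent_iff]
  intro g hg
  have key : ∀ j, g 0 * om (b 0) (b j) + g 1 * om (b 1) (b j) + g 2 * om (b 2) (b j) +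
      g 3 * om (b 3) (b j) = 0 := by
    intro j
    have h1 : om (∑ i, g i • b i) (b j) = 0 := by rw [hg, om_zero_left]
    rw [Fin.sum_univ_four] at h1
    simpa only [om_add_left, om_smul_left] using h1
  have k0 := key 0
  have k1 := key 1
  have k2 := key 2
  have k3 := key 3
  rw [om_self, h10, h20, h30] at k0
  rw [om_self, h01, h21, h31] at k1
  rw [om_self, h02, h12, h32] at k2
  rw [om_self, h03, h13, h23] at k3
  intro i
  fin_cases i
  · simpa using k2
  · simpa using k3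
  · have : g 2 * (-1 : k) = 0 := by simpa using k0
    simpa using this
  · have : g 3 * (-1 : k) = 0 := by simpa using k1
    simpa using this

lemma frame_sep {b : Fin 4 → Fin 4 → k} (hb : IsFrame b) (u : Fin 4 → k)
    (h : ∀ i, om u (b i) = 0) : u = 0 := by
  have hsp : Submodule.span k (Set.range b) = ⊤ :=
    (frame_li hb).span_eq_top_of_card_eq_finrank' (by simp)
  have h1 : ∀ w, om u w = 0 := by
    intro w
    have hw : w ∈ Submodule.span k (Set.range b) := by rw [hsp]; trivial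
    induction hw using Submodule.span_induction with
    | mem x hx =>
      obtain ⟨i, rfl⟩ := hx
      exact h i
    | zero => exact om_zero_right u
    | add x y _ _ hx hy => rw [om_add_right, hx, hy, add_zero]
    | smul a x _ hx => rw [om_smul_right, hx, mul_zero]
  funext i
  have e0 := h1 (Pi.single 2 1)
  have e1 := h1 (Pi.single 3 1)
  have e2 := h1 (Pi.single 0 1)
  have e3 := h1 (Pi.single 1 1)
  simp [om, Pi.single_apply] at e0 e1 e2 e3
  fin_cases i
  · simpa using e0
  · simpa using e1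
  · simpa using e2
  · simpa using e3

lemma expand {b : Fin 4 → Fin 4 → k} (hb : IsFrame b) (u : Fin 4 → k) :
    u = om u (b 2) • b 0 + om u (b 3) • b 1 - om u (b 0) • b 2 - om u (b 1) • b 3 := by
  obtain ⟨h01, h02, h03, h10, h12, h13, h20, h21, h23, h30, h31, h32⟩ := fr_val hb
  rw [← sub_eq_zero]
  refine frame_sep hb _ fun i => ?_
  simp only [om_sub_left, om_add_left, om_smul_left]
  fin_cases i
  · show om u (b 0) - (om u (b 2) * om (b 0) (b 0) + om u (b 3) * om (b 1) (b 0) -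
      om u (b 0) * om (b 2) (b 0) - om u (b 1) * om (b 3) (b 0)) = 0
    rw [om_self, h10, h20, h30]; ring
  · show om u (b 1) - (om u (b 2) * om (b 0) (b 1) + om u (b 3) * om (b 1) (b 1) -
      om u (b 0) * om (b 2) (b 1) - om u (b 1) * om (b 3) (b 1)) = 0
    rw [om_self, h01, h21, h31]; ring
  · show om u (b 2) - (om u (b 2) * om (b 0) (b 2) + om u (b 3) * om (b 1) (b 2) -
      om u (b 0) * om (b 2) (b 2) - om u (b 1) * om (b 3) (b 2)) = 0
    rw [om_self, h02, h12, h32]; ring
  · show om u (b 3) - (om u (b 2) * om (b 0) (b 3) + om u (b 3) * om (b 1) (b 3) -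
      om u (b 0) * om (b 2) (b 3) - om u (b 1) * om (b 3) (b 3)) = 0
    rw [om_self, h03, h13, h23]; ring

/-- membership in the filtration -/
lemma mem_flt {b : Fin 4 → Fin 4 → k} (hb : IsFrame b) (x : Fin 2 → ℚ) (c : ℚ) (u : Fin 4 → k) :
    u ∈ flt b x c ↔ (om u (b 2) ≠ 0 → c ≤ x 0) ∧ (om u (b 3) ≠ 0 → c ≤ x 1) ∧
      (om u (b 0) ≠ 0 → c ≤ -x 0) ∧ (om u (b 1) ≠ 0 → c ≤ -x 1) := by
  obtain ⟨h01, h02, h03, h10, h12, h13, h20, h21, h23, h30, h31, h32⟩ := fr_val hb
  constructor
  · intro hu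
    unfold flt at hu
    induction hu using Submodule.span_induction with
    | mem x hx =>
      obtain ⟨i, hi, rfl⟩ := hx
      fin_cases i
      · change c ≤ x 0 at hi
        change (om (b 0) (b 2) ≠ 0 → _) ∧ (om (b 0) (b 3) ≠ 0 → _) ∧ (om (b 0) (b 0) ≠ 0 → _) ∧
          (om (b 0) (b 1) ≠ 0 → _)
        rw [h03, om_self, h01]
        exact ⟨fun _ => hi, fun h => absurd rfl h, fun h => absurd rfl h, fun h => absurd rfl h⟩
      · change c ≤ x 1 at hi
        change (om (b 1) (b 2) ≠ 0 → _) ∧ (om (b 1) (b 3) ≠ 0 → _) ∧ (om (b 1) (b 0) ≠ 0 → _) ∧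
          (om (b 1) (b 1) ≠ 0 → _)
        rw [h12, om_self, h10]
        exact ⟨fun h => absurd rfl h, fun _ => hi, fun h => absurd rfl h, fun h => absurd rfl h⟩
      · change c ≤ -x 0 at hi
        change (om (b 2) (b 2) ≠ 0 → _) ∧ (om (b 2) (b 3) ≠ 0 → _) ∧ (om (b 2) (b 0) ≠ 0 → _) ∧
          (om (b 2) (b 1) ≠ 0 → _)
        rw [h23, om_self, h21]
        exact ⟨fun h => absurd rfl h, fun h => absurd rfl h, fun _ => hi, fun h => absurd rfl h⟩
      · change c ≤ -x 1 at hi
        change (om (b 3) (b 2) ≠ 0 → _) ∧ (om (b 3) (b 3) ≠ 0 → _) ∧ (om (b 3) (b 0) ≠ 0 → _) ∧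
          (om (b 3) (b 1) ≠ 0 → _)
        rw [h32, om_self, h30]
        exact ⟨fun h => absurd rfl h, fun h => absurd rfl h, fun h => absurd rfl h, fun _ => hi⟩
    | zero => simp [om_zero_left]
    | add u v _ _ hu hv =>
      simp only [om_add_left]
      have key : ∀ (s t : k) (P : Prop), (s ≠ 0 → P) → (t ≠ 0 → P) → s + t ≠ 0 → P := by
        intro s t P hs ht hst
        by_cases h : s = 0
        · refine ht fun h' => hst ?_
          rw [h, h', add_zero]
        · exact hs h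
      exact ⟨key _ _ _ hu.1 hv.1, key _ _ _ hu.2.1 hv.2.1, key _ _ _ hu.2.2.1 hv.2.2.1,
        key _ _ _ hu.2.2.2 hv.2.2.2⟩
    | smul a u _ hu =>
      simp only [om_smul_left]
      exact ⟨fun h => hu.1 (right_ne_zero_of_mul h), fun h => hu.2.1 (right_ne_zero_of_mul h),
        fun h => hu.2.2.1 (right_ne_zero_of_mul h), fun h => hu.2.2.2 (right_ne_zero_of_mul h)⟩
  · rintro ⟨e0, e1, e2, e3⟩
    have key : ∀ (a : k) (i : Fin 4), (a ≠ 0 → c ≤ wt x i) → a • b i ∈ flt b x c := by
      intro a i h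
      by_cases ha : a = 0
      · rw [ha, zero_smul]
        exact Submodule.zero_mem _
      · exact Submodule.smul_mem _ _ (Submodule.subset_span ⟨i, h ha, rfl⟩)
    rw [expand hb u]
    exact Submodule.sub_mem _ (Submodule.sub_mem _ (Submodule.add_mem _ (key _ 0 e0) (key _ 1 e1))
      (key _ 2 e2)) (key _ 3 e3)

lemma flt_smul (b : Fin 4 → Fin 4 → k) (x : Fin 2 → ℚ) {t : ℚ} (ht : 0 < t) (c : ℚ) :
    flt b (t • x) c = flt b x (c / t) := by
  unfold flt
  congr 1
  ext v
  refine exists_congr fun i => and_congr_left fun _ => ?_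
  have h1 : wt (t • x) i = t * wt x i := by
    fin_cases i <;> simp [wt]
  rw [h1, div_le_iff₀ ht, mul_comm]

end Pool.Agent.TH494.CC
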