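import Pool.Agent.TH494.CC.Arc

/-!
# Failure of the centre conjecture for closed convex subsets of rational buildings
-/

set_option autoImplicit false

namespace Pool.Agent.TH494.CC

variable {k : Type} [Field k]

/-- the norm -/
noncomputable def nrm (x : Fin 2 → ℚ) : ℝ := √((x 0 ^ 2 + x 1 ^ 2 : ℚ) : ℝ)

lemma nrm_sq (x : Fin 2 → ℚ) : nrm x ^ 2 = (x 0 : ℝ) ^ 2 + (x 1 : ℝ) ^ 2 := by
  unfold nrm
  rw [Real.sq_sqrt]
  · push_cast
    ring
  · exact_mod_cast (by positivity : (0 : ℚ) ≤ x 0 ^ 2 + x 1 ^ 2)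

lemma nrm_nonneg (x : Fin 2 → ℚ) : 0 ≤ nrm x := Real.sqrt_nonneg _

lemma nrm_pos {x : Fin 2 → ℚ} (hx : x ≠ 0) : 0 < nrm x := by
  refine lt_of_le_of_ne (nrm_nonneg x) fun h => hx ?_
  have h1 := nrm_sq x
  rw [← h] at h1
  have h3 : (x 0 : ℝ) = 0 := by nlinarith [sq_nonneg (x 0 : ℝ), sq_nonneg (x 1 : ℝ)]
  have h4 : (x 1 : ℝ) = 0 := by nlinarith [sq_nonneg (x 0 : ℝ), sq_nonneg (x 1 : ℝ)]
  funext i
  fin_cases i
  · exact_mod_cast h3
  · exact_mod_cast h4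

lemma nrm_smul {t : ℚ} (ht : 0 < t) (x : Fin 2 → ℚ) : nrm (t • x) = t * nrm x := by
  have ht' : (0 : ℝ) < t := by exact_mod_cast ht
  have h1 : nrm (t • x) ^ 2 = (t * nrm x) ^ 2 := by
    rw [mul_pow, nrm_sq, nrm_sq]
    simp only [Pi.smul_apply, smul_eq_mul]
    push_cast
    ring
  exact (pow_left_inj₀ (nrm_nonneg _) (mul_nonneg ht'.le (nrm_nonneg x)) two_ne_zero).1 h1

lemma ang_eq (x y : Fin 2 → ℚ) : ang x y = Real.arccos ((dot x y : ℝ) / (nrm x * nrm y)) := rfl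

lemma ang_move {b b' : Fin 4 → Fin 4 → k} {g : (Fin 2 → ℚ) → Fin 2 → ℚ} (h : Move b b' g)
    (x y : Fin 2 → ℚ) : ang (g x) (g y) = ang x y := by
  have h1 : ∀ v, nrm (g v) = nrm v := by
    intro v
    unfold nrm
    have h2 := h.2.2.2 v v
    unfold dot at h2
    congr 2
    linarith
  rw [ang_eq, ang_eq, h1, h1, h.2.2.2]

/-- a small angle to the arc -/
lemma small_ang {x y : Fin 2 → ℚ} (hx : x ≠ 0) (hy : y ∈ D0) {ε : ℝ} (h0 : 0 < ε)
    (h1 : ε ≤ 1 / 10) (h : ang x y < ε) :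
    0 < x 1 ∧ x 1 < x 0 ∧ -(7 * ε * nrm x) ≤ (x 0 : ℝ) - 2 * x 1 ∧
      -(10 * ε * nrm x) ≤ 3 * (x 1 : ℝ) - x 0 := by
  have hA := nrm_pos hx
  have hB := nrm_pos (D0_ne hy)
  have hA2 := nrm_sq x
  have hB2 := nrm_sq y
  obtain ⟨y1, y2, y3⟩ := hy
  have y1' : (0 : ℝ) < y 1 := by exact_mod_cast y1
  have y2' : 2 * (y 1 : ℝ) ≤ y 0 := by exact_mod_cast y2
  have y3' : (y 0 : ℝ) ≤ 3 * y 1 := by exact_mod_cast y3
  set A := nrm x with hAd
  set B := nrm y with hBd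
  set X0 : ℝ := (x 0 : ℝ) with hX0
  set X1 : ℝ := (x 1 : ℝ) with hX1
  set Y0 : ℝ := (y 0 : ℝ) with hY0
  set Y1 : ℝ := (y 1 : ℝ) with hY1
  set C : ℝ := X0 * Y0 + X1 * Y1 with hC
  set S : ℝ := X0 * Y1 - X1 * Y0 with hS
  have hCS : C ^ 2 + S ^ 2 = (A * B) ^ 2 := by
    rw [mul_pow, hA2, hB2]
    ring
  have hAB : 0 < A * B := mul_pos hA hB
  have hcast : ((dot x y : ℚ) : ℝ) = C := by
    unfold dot
    push_cast
    rfl
  rw [ang_eq, hcast] at h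
  have hle1 : -1 ≤ C / (A * B) := by
    rw [le_div_iff₀ hAB]
    nlinarith [sq_nonneg S]
  have hle2 : C / (A * B) ≤ 1 := by
    rw [div_le_one hAB]
    nlinarith [sq_nonneg S]
  have hpi := Real.pi_gt_three
  have h3 : Real.cos ε < C / (A * B) := by
    have := Real.cos_lt_cos_of_nonneg_of_le_pi (Real.arccos_nonneg _) (by linarith) h
    rwa [Real.cos_arccos hle1 hle2] at this
  have h4 := Real.one_sub_sq_div_two_le_cos (x := ε)
  have h5 : (1 - ε ^ 2 / 2) * (A * B) < C := by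
    have : 1 - ε ^ 2 / 2 < C / (A * B) := lt_of_le_of_lt h4 h3
    rwa [lt_div_iff₀ hAB] at this
  have hε2 : ε ^ 2 ≤ 1 / 100 := by nlinarith
  have h6 : 1 / 2 * (A * B) ≤ C := by nlinarith
  have h7 : S ^ 2 ≤ (ε * (A * B)) ^ 2 := by
    have h8 : ((1 - ε ^ 2 / 2) * (A * B)) ^ 2 ≤ C ^ 2 := by
      apply pow_le_pow_left₀ _ h5.le
      apply mul_nonneg _ hAB.le
      nlinarith
    have h9 : 0 ≤ ε ^ 4 * (A * B) ^ 2 := by positivity
    nlinarith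
  have h8 : |S| ≤ ε * (A * B) := abs_le_of_sq_le_sq h7 (by positivity)
  have hS1 := (abs_le.1 h8).1
  have hS2 := (abs_le.1 h8).2
  have hBY : Y1 ≤ B := by
    have : Y1 ^ 2 ≤ B ^ 2 := by nlinarith [sq_nonneg Y0]
    exact (abs_le_of_sq_le_sq' this hB.le).2
  have hB20 : 0 < B ^ 2 := by positivity
  have hABY : 0 < A * B * Y1 := by positivity
  have i0 : X0 * B ^ 2 = C * Y0 + S * Y1 := by rw [hB2, hC, hS]; ring
  have i1 : X1 * B ^ 2 = C * Y1 - S * Y0 := by rw [hB2, hC, hS]; ring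
  have hC0 : 0 ≤ C := by nlinarith
  have sY0 : S * Y0 ≤ ε * (A * B) * (3 * Y1) := by
    calc S * Y0 ≤ (ε * (A * B)) * Y0 := mul_le_mul_of_nonneg_right hS2 (by linarith)
      _ ≤ _ := mul_le_mul_of_nonneg_left y3' (by positivity)
  have sY0' : -(ε * (A * B) * (3 * Y1)) ≤ S * Y0 := by
    have h10 : -(ε * (A * B)) * Y0 ≤ S * Y0 := mul_le_mul_of_nonneg_right hS1 (by linarith)
    have h11 : (ε * (A * B)) * Y0 ≤ (ε * (A * B)) * (3 * Y1) :=
      mul_le_mul_of_nonneg_left y3' (by positivity)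
    linarith
  have sY1 : S * Y1 ≤ ε * (A * B) * Y1 := mul_le_mul_of_nonneg_right hS2 y1'.le
  have sY1' : -(ε * (A * B) * Y1) ≤ S * Y1 := by
    have := mul_le_mul_of_nonneg_right hS1 y1'.le
    linarith
  have cY : 1 / 2 * (A * B) * Y1 ≤ C * Y1 := mul_le_mul_of_nonneg_right h6 y1'.le
  have eABY : ε * (A * B) * Y1 ≤ 1 / 10 * (A * B * Y1) := by
    have := mul_le_mul_of_nonneg_right h1 hABY.le
    linarith
  have bound : ε * (A * B) * Y1 ≤ ε * A * B ^ 2 := by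
    have := mul_le_mul_of_nonneg_left hBY (by positivity : 0 ≤ ε * (A * B))
    nlinarith
  have p1 : 0 < X1 := by
    have : 0 < X1 * B ^ 2 := by
      rw [i1]
      nlinarith
    exact (mul_pos_iff_of_pos_right hB20).1 this
  have p2 : 0 < X0 - X1 := by
    have h12 : C * Y1 ≤ C * (Y0 - Y1) := mul_le_mul_of_nonneg_left (by linarith) hC0
    have : 0 < (X0 - X1) * B ^ 2 := by
      have : (X0 - X1) * B ^ 2 = C * (Y0 - Y1) + (S * Y1 + S * Y0) := by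
        rw [sub_mul, i0, i1]
        ring
      rw [this]
      nlinarith
    exact (mul_pos_iff_of_pos_right hB20).1 this
  have p3 : -(7 * ε * A) ≤ X0 - 2 * X1 := by
    have h12 : 0 ≤ C * (Y0 - 2 * Y1) := mul_nonneg hC0 (by linarith)
    have h13 : (X0 - 2 * X1) * B ^ 2 = C * (Y0 - 2 * Y1) + (S * Y1 + 2 * (S * Y0)) := by
      have : (X0 - 2 * X1) * B ^ 2 = X0 * B ^ 2 - 2 * (X1 * B ^ 2) := by ring
      rw [this, i0, i1]
      ring
    have h14 : -(7 * ε * A) * B ^ 2 ≤ (X0 - 2 * X1) * B ^ 2 := by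
      rw [h13]
      nlinarith
    exact le_of_mul_le_mul_right h14 hB20
  have p4 : -(10 * ε * A) ≤ 3 * X1 - X0 := by
    have h12 : 0 ≤ C * (3 * Y1 - Y0) := mul_nonneg hC0 (by linarith)
    have h13 : (3 * X1 - X0) * B ^ 2 = C * (3 * Y1 - Y0) - (3 * (S * Y0) + S * Y1) := by
      have : (3 * X1 - X0) * B ^ 2 = 3 * (X1 * B ^ 2) - X0 * B ^ 2 := by ring
      rw [this, i0, i1]
      ring
    have h14 : -(10 * ε * A) * B ^ 2 ≤ (3 * X1 - X0) * B ^ 2 := by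
      rw [h13]
      nlinarith
    exact le_of_mul_le_mul_right h14 hB20
  have q1 : (0 : ℝ) < (x 1 : ℝ) := p1
  have q2 : (x 1 : ℝ) < (x 0 : ℝ) := sub_pos.1 p2
  exact ⟨by exact_mod_cast q1, by exact_mod_cast q2, p3, p4⟩

lemma closed_arc {b0 : Fin 4 → Fin 4 → k} (hb0 : IsFrame b0) : Closed (pts b0 D0) := by
  intro p hp
  -- coordinates of `p` in the apartment of `b0`
  have h1 : ∀ ε : ℝ, 0 < ε → ε ≤ 1 / 10 → ∃ x : Fin 2 → ℚ, p.1 = ray b0 x ∧ 0 < x 1 ∧ x 1 < x 0 ∧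
      -(7 * ε * nrm x) ≤ (x 0 : ℝ) - 2 * x 1 ∧ -(10 * ε * nrm x) ≤ 3 * (x 1 : ℝ) - x 0 := by
    intro ε h0 h1
    obtain ⟨q, hq, θ, ⟨b, x, y, hb, hx, hy, hpx, hqy, rfl⟩, hlt⟩ := hp ε h0
    obtain ⟨b', g, hM, g1, g2⟩ := exists_move hb y
    rw [hM.ray] at hpx hqy
    obtain ⟨hyD, hF⟩ := key hM.1 hb0 hq g1 g2 hqy
    rw [← ang_move hM] at hlt
    have hgx : g x ≠ 0 := by
      intro h
      apply hx
      have h2 := hM.2.2.2 x x
      rw [h] at h2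
      have h3 : x 0 * x 0 + x 1 * x 1 = 0 := by
        have : dot (0 : Fin 2 → ℚ) 0 = 0 := by simp [dot]
        rw [this] at h2
        exact h2.symm
      funext i
      fin_cases i
      · show x 0 = 0
        nlinarith [mul_self_nonneg (x 0), mul_self_nonneg (x 1)]
      · show x 1 = 0
        nlinarith [mul_self_nonneg (x 0), mul_self_nonneg (x 1)]
    obtain ⟨e1, e2, e3, e4⟩ := small_ang hgx hyD h0 h1 hlt
    refine ⟨g x, ?_, e1, e2, e3, e4⟩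
    rw [hpx]
    refine ray_eq_iff.2 ⟨1, one_pos, ?_⟩
    rw [one_smul]
    exact flt_of_flag hM.1 hb0 hF e1.le e2.le
  obtain ⟨x, hx, x1, x2, -, -⟩ := h1 (1 / 10) (by norm_num) le_rfl
  have h2 : ∀ ε : ℝ, 0 < ε → ε ≤ 1 / 10 → -(7 * ε * nrm x) ≤ (x 0 : ℝ) - 2 * x 1 ∧
      -(10 * ε * nrm x) ≤ 3 * (x 1 : ℝ) - x 0 := by
    intro ε h0 h3
    obtain ⟨z, hz, z1, z2, z3, z4⟩ := h1 ε h0 h3
    rw [hx] at hz
    obtain ⟨t, ht, h4⟩ := ray_eq_iff.1 hz.symm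
    have htx1 : 0 < (t • x) 1 := mul_pos ht x1
    have htx2 : (t • x) 1 < (t • x) 0 := by
      show t * x 1 < t * x 0
      exact mul_lt_mul_of_pos_left x2 ht
    obtain ⟨e, -⟩ := lemC hb0 hb0 z1.le z2.le htx1 htx2 h4
    rw [e] at z3 z4
    rw [nrm_smul ht] at z3 z4
    simp only [Pi.smul_apply, smul_eq_mul] at z3 z4
    push_cast at z3 z4
    have ht' : (0 : ℝ) < t := by exact_mod_cast ht
    constructor
    · have : t * -(7 * ε * nrm x) ≤ t * ((x 0 : ℝ) - 2 * x 1) := by nlinarith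
      exact le_of_mul_le_mul_left this ht'
    · have : t * -(10 * ε * nrm x) ≤ t * (3 * (x 1 : ℝ) - x 0) := by nlinarith
      exact le_of_mul_le_mul_left this ht'
  have hN := nrm_nonneg x
  have gen : ∀ (K r : ℝ), 0 < K → (∀ ε : ℝ, 0 < ε → ε ≤ 1 / 10 → -(K * ε * nrm x) ≤ r) → 0 ≤ r := by
    intro K r hK h
    by_contra hcon
    rw [not_le] at hcon
    have hKN : 0 < K * (nrm x + 1) := by positivity
    set ε : ℝ := min (1 / 10) (-r / (2 * (K * (nrm x + 1)))) with hε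
    have hε0 : 0 < ε := by
      apply lt_min (by norm_num)
      apply div_pos (by linarith) (by positivity)
    have h3 := h ε hε0 (min_le_left _ _)
    have h4 : ε ≤ -r / (2 * (K * (nrm x + 1))) := min_le_right _ _
    rw [le_div_iff₀ (by positivity)] at h4
    have h5 : K * ε * nrm x ≤ ε * (K * (nrm x + 1)) := by
      have : 0 ≤ K * ε := by positivity
      nlinarith
    nlinarith
  refine ⟨x, ⟨x1, ?_, ?_⟩, hx⟩
  · have := gen 7 ((x 0 : ℝ) - 2 * x 1) (by norm_num) fun ε h0 h3 => (h2 ε h0 h3).1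
    have h5 : (2 : ℝ) * x 1 ≤ x 0 := by linarith
    exact_mod_cast h5
  · have := gen 10 (3 * (x 1 : ℝ) - x 0) (by norm_num) fun ε h0 h3 => (h2 ε h0 h3).2
    have h5 : (x 0 : ℝ) ≤ 3 * x 1 := by linarith
    exact_mod_cast h5

/-- the standard basis -/
def std (k : Type) [Field k] : Fin 4 → Fin 4 → k := fun i => Pi.single i 1

lemma frame_std : IsFrame (std k) := fun _ _ => rfl

lemma tb_std : tb (std k) = std k := by
  funext i j
  fin_cases i <;> fin_cases j <;> simp [tb, mu, std]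

lemma mm_D0 : mm '' D0 = D0 := by
  have key : ∀ x : Fin 2 → ℚ, x ∈ D0 → mm x ∈ D0 := by
    rintro x ⟨h1, h2, h3⟩
    refine ⟨?_, ?_, ?_⟩
    · show 0 < x 0 - x 1
      linarith
    · show 2 * (x 0 - x 1) ≤ x 0 + x 1
      linarith
    · show x 0 + x 1 ≤ 3 * (x 0 - x 1)
      linarith
  ext y
  constructor
  · rintro ⟨x, hx, rfl⟩
    exact key x hx
  · intro hy
    exact ⟨(1 / 2 : ℚ) • mm y, D0_smul (key y hy) (by norm_num), mm_surj y⟩

lemma no_fix (h2 : (2 : k) = 0) (hk : ∀ a : k, ∃ r : k, r ^ 2 = a) (p : Pt k)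
    (hp : p ∈ pts (std k) D0) : phi h2 hk p ≠ p := by
  intro hfix
  obtain ⟨z, hz, hpz⟩ := hp
  have h1 := (phi_ray h2 hk frame_std z).2 hpz
  rw [hfix, hpz, tb_std] at h1
  obtain ⟨t, ht, h⟩ := ray_eq_iff.1 h1.symm
  have hm : mm z ∈ D0 := by
    rw [← mm_D0]
    exact ⟨z, hz, rfl⟩
  have hz' := D0_smul hz ht
  obtain ⟨e, -⟩ := lemC frame_std frame_std (D0_reg hm).1.le (D0_reg hm).2.le (D0_reg hz').1
    (D0_reg hz').2 h
  have e0 : z 0 + z 1 = t * z 0 := congrFun e 0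
  have e1 : z 0 - z 1 = t * z 1 := congrFun e 1
  have hz1 := hz.1
  have h3 : (z 0 - z 1) ^ 2 = 2 * z 1 ^ 2 := by
    linear_combination (z 0) * e1 - (z 1) * e0
  have h4 : ((z 0 - z 1) / z 1) ^ 2 = 2 := by
    rw [div_pow, h3]
    field_simp
  have h5 : √(2 : ℝ) = |(((z 0 - z 1) / z 1 : ℚ) : ℝ)| := by
    rw [← Real.sqrt_sq_eq_abs]
    congr 1
    exact_mod_cast h4.symm
  exact irrational_sqrt_two ⟨|(z 0 - z 1) / z 1|, by rw [h5]; push_cast; rfl⟩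

/-- the main statement -/
theorem main (h2 : (2 : k) = 0) (hk : ∀ a : k, ∃ r : k, r ^ 2 = a) :
    ∃ S : Set (Pt k), S.Nonempty ∧ (∃ b, IsFrame b ∧ S ⊆ cham b) ∧ Conv S ∧ Closed S ∧
      ¬ IsSubcomplex S ∧ ¬ IsCR S ∧ ∃ φ : Equiv.Perm (Pt k), IsAut φ ∧ φ '' S = S ∧ ∀ p ∈ S, φ p ≠ p := by
  have hz : (![2, 1] : Fin 2 → ℚ) ∈ D0 := by
    refine ⟨?_, ?_, ?_⟩
    · show (0 : ℚ) < 1
      norm_num
    · show (2 : ℚ) * 1 ≤ 2
      norm_num
    · show (2 : ℚ) ≤ 3 * 1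
      norm_num
  refine ⟨pts (std k) D0, ⟨mk (std k) _ frame_std (D0_ne hz), _, hz, rfl⟩,
    ⟨std k, frame_std, ?_⟩, conv_arc frame_std, closed_arc frame_std, not_sub frame_std hz, not_cr frame_std hz, phi h2 hk, isAut_phi h2 hk,
    ?_, no_fix h2 hk⟩
  · rintro p ⟨x, hx, hp⟩
    exact ⟨x, D0_ne hx, (D0_reg hx).1.le, (D0_reg hx).2.le, hp⟩
  rw [image_pts h2 hk frame_std _ fun x hx => D0_ne hx, tb_std, mm_D0]

end Pool.Agent.TH494.CC
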