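import Pool.Agent.TH494.CC.Iso

/-!
# The building automorphism given by the special isogeny
-/

set_option autoImplicit false

namespace Pool.Agent.TH494.CC

variable {k : Type} [Field k]

lemma ray_eq_iff {b b' : Fin 4 → Fin 4 → k} {x x' : Fin 2 → ℚ} :
    ray b x = ray b' x' ↔ ∃ t : ℚ, 0 < t ∧ flt b x = flt b' (t • x') := by
  constructor
  · intro h
    have h1 : flt b x ∈ ray b x := ⟨1, one_pos, by rw [one_smul]⟩
    rw [h] at h1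
    exact h1
  · rintro ⟨t, ht, h⟩
    have key : ∀ s : ℚ, 0 < s → flt b (s • x) = flt b' (s • t • x') := by
      intro s hs
      funext c
      rw [flt_smul _ _ hs, flt_smul _ _ hs, h]
    ext F
    constructor
    · rintro ⟨s, hs, rfl⟩
      exact ⟨s * t, mul_pos hs ht, by rw [key s hs, smul_smul]⟩
    · rintro ⟨s, hs, rfl⟩
      refine ⟨s / t, div_pos hs ht, ?_⟩
      rw [key _ (div_pos hs ht), smul_smul, div_mul_cancel₀ _ ht.ne']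

lemma ray_smul (b : Fin 4 → Fin 4 → k) (x : Fin 2 → ℚ) {t : ℚ} (ht : 0 < t) :
    ray b (t • x) = ray b x := ray_eq_iff.2 ⟨t, ht, rfl⟩

/-- the point with the given direction -/
def mk (b : Fin 4 → Fin 4 → k) (x : Fin 2 → ℚ) (hb : IsFrame b) (hx : x ≠ 0) : Pt k :=
  ⟨ray b x, b, x, hb, hx, rfl⟩

lemma image_ray (h2 : (2 : k) = 0) {b : Fin 4 → Fin 4 → k} (hb : IsFrame b) (x : Fin 2 → ℚ) :
    Phi '' ray b x = ray (tb b) (mm x) := by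
  ext F
  constructor
  · rintro ⟨_, ⟨t, ht, rfl⟩, rfl⟩
    exact ⟨t, ht, by rw [Phi_flt h2 hb, mm_smul]⟩
  · rintro ⟨t, ht, rfl⟩
    exact ⟨flt b (t • x), ⟨t, ht, rfl⟩, by rw [Phi_flt h2 hb, mm_smul]⟩

/-- the map on points -/
noncomputable def phiF (h2 : (2 : k) = 0) (p : Pt k) : Pt k :=
  ⟨Phi '' p.1, by
    obtain ⟨b, x, hb, hx, hp⟩ := p.2
    exact ⟨tb b, mm x, frame_tb h2 hb, mm_ne hx, by rw [hp, image_ray h2 hb]⟩⟩

lemma phiF_ray (h2 : (2 : k) = 0) {p : Pt k} {b : Fin 4 → Fin 4 → k} (hb : IsFrame b)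
    (x : Fin 2 → ℚ) : (phiF h2 p).1 = ray (tb b) (mm x) ↔ p.1 = ray b x := by
  constructor
  · intro h
    obtain ⟨b', x', hb', hx', hp⟩ := p.2
    have h1 : Phi '' p.1 = ray (tb b) (mm x) := h
    rw [hp, image_ray h2 hb'] at h1
    obtain ⟨t, ht, h3⟩ := ray_eq_iff.1 h1
    rw [← mm_smul] at h3
    rw [hp]
    exact ray_eq_iff.2 ⟨t, ht, Phi_inj h2 hb' hb h3⟩
  · intro h
    show Phi '' p.1 = _
    rw [h, image_ray h2 hb]

lemma phiF_inj (h2 : (2 : k) = 0) : Function.Injective (phiF h2) := by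
  intro p q h
  obtain ⟨b, x, hb, hx, hq⟩ := q.2
  apply Subtype.ext
  rw [hq, ← phiF_ray h2 hb, h, phiF_ray h2 hb, hq]

lemma mm_surj (y : Fin 2 → ℚ) : mm ((1 / 2 : ℚ) • mm y) = y := by
  rw [mm_smul, mm_mm, smul_smul]
  norm_num

lemma phiF_surj (h2 : (2 : k) = 0) (hk : ∀ a : k, ∃ r : k, r ^ 2 = a) :
    Function.Surjective (phiF h2) := by
  intro q
  obtain ⟨c, y, hc, hy, hq⟩ := q.2
  obtain ⟨b, hb, rfl⟩ := tb_surj h2 hk hc
  have hx : (1 / 2 : ℚ) • mm y ≠ 0 := by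
    intro h
    have h1 := mm_surj y
    rw [h] at h1
    apply hy
    rw [← h1]
    funext i
    fin_cases i <;> simp [mm]
  refine ⟨mk b ((1 / 2 : ℚ) • mm y) hb hx, Subtype.ext ?_⟩
  have h1 := (phiF_ray h2 (p := mk b ((1 / 2 : ℚ) • mm y) hb hx) hb ((1 / 2 : ℚ) • mm y)).2 rfl
  rw [h1, mm_surj, hq]

/-- the permutation of the points -/
noncomputable def phi (h2 : (2 : k) = 0) (hk : ∀ a : k, ∃ r : k, r ^ 2 = a) :
    Equiv.Perm (Pt k) := Equiv.ofBijective (phiF h2) ⟨phiF_inj h2, phiF_surj h2 hk⟩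

section auto

variable (h2 : (2 : k) = 0) (hk : ∀ a : k, ∃ r : k, r ^ 2 = a)

lemma phi_ray {p : Pt k} {b : Fin 4 → Fin 4 → k} (hb : IsFrame b)
    (x : Fin 2 → ℚ) : (phi h2 hk p).1 = ray (tb b) (mm x) ↔ p.1 = ray b x := phiF_ray h2 hb x

/-- the points of an apartment with coordinates in `D` -/
def pts (b : Fin 4 → Fin 4 → k) (D : Set (Fin 2 → ℚ)) : Set (Pt k) := {p | ∃ x ∈ D, p.1 = ray b x}

lemma image_pts {b : Fin 4 → Fin 4 → k} (hb : IsFrame b) (D : Set (Fin 2 → ℚ))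
    (hD : ∀ x ∈ D, x ≠ 0) : phi h2 hk '' pts b D = pts (tb b) (mm '' D) := by
  ext q
  constructor
  · rintro ⟨p, ⟨x, hx, hp⟩, rfl⟩
    exact ⟨mm x, ⟨x, hx, rfl⟩, (phi_ray h2 hk hb x).2 hp⟩
  · rintro ⟨_, ⟨x, hx, rfl⟩, hq⟩
    refine ⟨mk b x hb (hD x hx), ⟨x, hx, rfl⟩, Subtype.ext ?_⟩
    rw [(phi_ray h2 hk (p := mk b x hb (hD x hx)) hb x).2 rfl, hq]

lemma apt_eq (b : Fin 4 → Fin 4 → k) : apt b = pts b {x | x ≠ 0} := rfl

lemma cham_eq (b : Fin 4 → Fin 4 → k) :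
    cham b = pts b {x : Fin 2 → ℚ | x ≠ 0 ∧ 0 ≤ x 1 ∧ x 1 ≤ x 0} := by
  ext p
  constructor
  · rintro ⟨x, h1, h2, h3, h4⟩
    exact ⟨x, ⟨h1, h2, h3⟩, h4⟩
  · rintro ⟨x, ⟨h1, h2, h3⟩, h4⟩
    exact ⟨x, h1, h2, h3, h4⟩

lemma vert_eq (b : Fin 4 → Fin 4 → k) (y : Fin 2 → ℚ) :
    {p : Pt k | p.1 = ray b y} = pts b {y} := by
  ext p
  constructor
  · intro h
    exact ⟨y, rfl, h⟩
  · rintro ⟨x, hx, h⟩
    rw [Set.mem_singleton_iff] at hx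
    subst hx
    exact h

lemma mm_image_ne : mm '' {x | x ≠ 0} = {x : Fin 2 → ℚ | x ≠ 0} := by
  ext y
  constructor
  · rintro ⟨x, hx, rfl⟩
    exact mm_ne hx
  · intro hy
    refine ⟨(1 / 2 : ℚ) • mm y, ?_, mm_surj y⟩
    intro h
    have h1 := mm_ne (show y ≠ 0 from hy)
    rcases smul_eq_zero.1 h with h3 | h3
    · norm_num at h3
    · exact h1 h3

lemma mm_image_cham : mm '' {x : Fin 2 → ℚ | x ≠ 0 ∧ 0 ≤ x 1 ∧ x 1 ≤ x 0} =
    {x : Fin 2 → ℚ | x ≠ 0 ∧ 0 ≤ x 1 ∧ x 1 ≤ x 0} := by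
  have key : ∀ x : Fin 2 → ℚ, x ≠ 0 ∧ 0 ≤ x 1 ∧ x 1 ≤ x 0 → mm x ≠ 0 ∧ 0 ≤ mm x 1 ∧ mm x 1 ≤ mm x 0 := by
    rintro x ⟨h1, h2, h3⟩
    refine ⟨mm_ne h1, ?_, ?_⟩
    · show 0 ≤ x 0 - x 1
      linarith
    · show x 0 - x 1 ≤ x 0 + x 1
      linarith
  ext y
  constructor
  · rintro ⟨x, hx, rfl⟩
    exact key x hx
  · intro hy
    refine ⟨(1 / 2 : ℚ) • mm y, ?_, mm_surj y⟩
    obtain ⟨h1, h2, h3⟩ := key y hy
    refine ⟨smul_ne_zero (by norm_num) h1, ?_, ?_⟩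
    · show 0 ≤ (1 / 2 : ℚ) * mm y 1
      positivity
    · show (1 / 2 : ℚ) * mm y 1 ≤ (1 / 2 : ℚ) * mm y 0
      linarith

lemma image_apt {b : Fin 4 → Fin 4 → k} (hb : IsFrame b) :
    phi h2 hk '' apt b = apt (tb b) := by
  rw [apt_eq, apt_eq, image_pts h2 hk hb {x | x ≠ 0} (fun x hx => hx), mm_image_ne]

lemma image_cham {b : Fin 4 → Fin 4 → k} (hb : IsFrame b) :
    phi h2 hk '' cham b = cham (tb b) := by
  rw [cham_eq, cham_eq, image_pts h2 hk hb _ (fun x hx => hx.1), mm_image_cham]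

lemma ne10 : (![1, 0] : Fin 2 → ℚ) ≠ 0 := fun h => by simpa using congrFun h 0

lemma ne11 : (![1, 1] : Fin 2 → ℚ) ≠ 0 := fun h => by simpa using congrFun h 0

lemma image_v0 {b : Fin 4 → Fin 4 → k} (hb : IsFrame b) :
    phi h2 hk '' {p | p.1 = ray b ![1, 0]} = {p | p.1 = ray (tb b) ![1, 1]} := by
  rw [vert_eq, vert_eq, image_pts h2 hk hb _ (fun x hx => by
    rw [Set.mem_singleton_iff] at hx; rw [hx]; exact ne10), Set.image_singleton]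
  congr 2
  funext i
  fin_cases i <;> simp [mm]

lemma image_v1 {b : Fin 4 → Fin 4 → k} (hb : IsFrame b) :
    phi h2 hk '' {p | p.1 = ray b ![1, 1]} = {p | p.1 = ray (tb b) ![1, 0]} := by
  rw [vert_eq, image_pts h2 hk hb _ (fun x hx => by
    rw [Set.mem_singleton_iff] at hx; rw [hx]; exact ne11), Set.image_singleton, ← vert_eq]
  have h : mm ![1, 1] = (2 : ℚ) • (![1, 0] : Fin 2 → ℚ) := by
    funext i
    fin_cases i
    · show (1 : ℚ) + 1 = 2 * 1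
      norm_num
    · show (1 : ℚ) - 1 = 2 * 0
      norm_num
  rw [h, ray_smul _ _ (by norm_num : (0 : ℚ) < 2)]

lemma ang_mm (x y : Fin 2 → ℚ) : ang (mm x) (mm y) = ang x y := by
  unfold ang
  congr 1
  have e1 : mm x 0 * mm y 0 + mm x 1 * mm y 1 = 2 * (x 0 * y 0 + x 1 * y 1) := by
    show (x 0 + x 1) * (y 0 + y 1) + (x 0 - x 1) * (y 0 - y 1) = _
    ring
  have e2 : ∀ z : Fin 2 → ℚ, mm z 0 ^ 2 + mm z 1 ^ 2 = 2 * (z 0 ^ 2 + z 1 ^ 2) := by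
    intro z
    show (z 0 + z 1) ^ 2 + (z 0 - z 1) ^ 2 = _
    ring
  rw [e1, e2, e2]
  push_cast
  have h3 : (0 : ℝ) ≤ 2 := by norm_num
  rw [Real.sqrt_mul h3, Real.sqrt_mul h3]
  have h4 : √(2 : ℝ) * √((x 0 : ℝ) ^ 2 + (x 1 : ℝ) ^ 2) * (√(2 : ℝ) * √((y 0 : ℝ) ^ 2 + (y 1 : ℝ) ^ 2)) =
      2 * (√((x 0 : ℝ) ^ 2 + (x 1 : ℝ) ^ 2) * √((y 0 : ℝ) ^ 2 + (y 1 : ℝ) ^ 2)) := by
    have h5 : √(2 : ℝ) * √(2 : ℝ) = 2 := Real.mul_self_sqrt h3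
    linear_combination (√((x 0 : ℝ) ^ 2 + (x 1 : ℝ) ^ 2) * √((y 0 : ℝ) ^ 2 + (y 1 : ℝ) ^ 2)) * h5
  rw [h4, mul_div_mul_left _ _ (by norm_num : (2 : ℝ) ≠ 0)]

/-- the isogeny gives a building automorphism -/
lemma isAut_phi : IsAut (phi h2 hk) := by
  have hinj : Function.Injective (Set.image (phi h2 hk)) := (phi h2 hk).injective.image_injective
  refine ⟨?_, ?_, ?_⟩
  · intro A
    constructor
    · rintro ⟨b, hb, rfl⟩
      exact ⟨tb b, frame_tb h2 hb, image_apt h2 hk hb⟩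
    · rintro ⟨c, hc, h⟩
      obtain ⟨b, hb, rfl⟩ := tb_surj h2 hk hc
      rw [← image_apt h2 hk hb] at h
      exact ⟨b, hb, hinj h⟩
  · intro s
    constructor
    · rintro ⟨b, hb, rfl | rfl | rfl⟩
      · exact ⟨tb b, frame_tb h2 hb, Or.inl (image_cham h2 hk hb)⟩
      · exact ⟨tb b, frame_tb h2 hb, Or.inr (Or.inr (image_v0 h2 hk hb))⟩
      · exact ⟨tb b, frame_tb h2 hb, Or.inr (Or.inl (image_v1 h2 hk hb))⟩
    · rintro ⟨c, hc, h⟩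
      obtain ⟨b, hb, rfl⟩ := tb_surj h2 hk hc
      rw [← image_cham h2 hk hb, ← image_v0 h2 hk hb, ← image_v1 h2 hk hb] at h
      rcases h with h | h | h
      · exact ⟨b, hb, Or.inl (hinj h)⟩
      · exact ⟨b, hb, Or.inr (Or.inr (hinj h))⟩
      · exact ⟨b, hb, Or.inr (Or.inl (hinj h))⟩
  · intro p q θ
    constructor
    · rintro ⟨b, x, y, hb, hx, hy, hp, hq, hθ⟩
      exact ⟨tb b, mm x, mm y, frame_tb h2 hb, mm_ne hx, mm_ne hy, (phi_ray h2 hk hb x).2 hp,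
        (phi_ray h2 hk hb y).2 hq, by rw [ang_mm, hθ]⟩
    · rintro ⟨c, x', y', hc, hx', hy', hp, hq, hθ⟩
      obtain ⟨b, hb, rfl⟩ := tb_surj h2 hk hc
      rw [← mm_surj x'] at hp hθ
      rw [← mm_surj y'] at hq hθ
      refine ⟨b, (1 / 2 : ℚ) • mm x', (1 / 2 : ℚ) • mm y', hb,
        smul_ne_zero (by norm_num) (mm_ne hx'), smul_ne_zero (by norm_num) (mm_ne hy'),
        (phi_ray h2 hk hb _).1 hp, (phi_ray h2 hk hb _).1 hq, ?_⟩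
      rw [hθ, ang_mm]

end auto

end Pool.Agent.TH494.CC
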